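import Pool.Agent.H8.JS.Targets
import Pool.Agent.H58.TW.FA

/-!
# Module FT: a step of a Turing machine is first-order definable
-/

set_option autoImplicit false

namespace Pool.Agent.H60.JS

open Pool.Agent.H69.Sp Pool.Agent.H69.Mt Pool.Agent.H16.TO Pool.Agent.H8.PL Pool.Agent.H8.JS

theorem pf_ft (hFG : J_FG) : J_FT := by
  intro M eq es
  obtain ⟨g1, g2, g3, g4⟩ := hFG
  have := M.finQ
  have := M.finΓ
  refine (Pool.Agent.H58.TW.pf_fi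
    (M.Q × M.Q × (Fin (M.k + 1) → Sym M.Γ) × (Fin (M.k + 1) → Sym M.Γ) × (Fin (M.k + 1) → Mv))
    (fun o N E v => M.δ o.1 o.2.2.1 o.2.1 o.2.2.2.1 o.2.2.2.2 ∧
      Ex1 N (fun s => E 1 [v 6, s]) (eq o.1) ∧ Ex1 N (fun s => E 1 [v 7, s]) (eq o.2.1) ∧
      ∀ j : Fin (M.k + 1), ∃ p, p < N ∧ ∃ p', p' < N ∧ (p' = (o.2.2.2.2 j).go p ∧
        Ex1 N (fun s => E (2 + 2 * j.1) [v 6, s]) p ∧ Ex1 N (fun s => E (2 + 2 * j.1) [v 7, s]) p' ∧
        Ex1 N (fun s => E (3 + 2 * j.1) [v 6, p, s]) (es (o.2.2.1 j)) ∧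
        Ex1 N (fun s => E (3 + 2 * j.1) [v 7, p, s]) (es (o.2.2.2.1 j)) ∧
        ∀ y, y < N → (y ≠ p → ∀ s, s < N →
          (E (3 + 2 * j.1) [v 6, y, s] ↔ E (3 + 2 * j.1) [v 7, y, s])))) ?_).2
  intro o
  refine (FD.const _).and ((g1 1 6 (eq o.1) (by omega)).and ((g1 1 7 (eq o.2.1) (by omega)).and
    ((Pool.Agent.H58.TW.pf_fi (Fin (M.k + 1)) _ ?_).1)))
  intro j
  have h1 : FD (fun N E v => ∀ y, y < N → (y ≠ v 10 → ∀ s, s < N →
      (E (3 + 2 * j.1) [v 6, y, s] ↔ E (3 + 2 * j.1) [v 7, y, s]))) := by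
    refine (FD.all 12 ((FD.eq 12 10).not.imp (FD.all 13 ((FD.par (3 + 2 * j.1) [6, 12, 13]).iff
      (FD.par (3 + 2 * j.1) [7, 12, 13]))))).congr fun N E v hv => ?_
    refine forall₂_congr fun y hy => ?_
    simp [Function.update_apply]
  have h2 : FD (fun N E v => v 11 = (o.2.2.2.2 j).go (v 10) ∧
        Ex1 N (fun s => E (2 + 2 * j.1) [v 6, s]) (v 10) ∧
        Ex1 N (fun s => E (2 + 2 * j.1) [v 7, s]) (v 11) ∧
        Ex1 N (fun s => E (3 + 2 * j.1) [v 6, v 10, s]) (es (o.2.2.1 j)) ∧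
        Ex1 N (fun s => E (3 + 2 * j.1) [v 7, v 10, s]) (es (o.2.2.2.1 j)) ∧
        ∀ y, y < N → (y ≠ v 10 → ∀ s, s < N →
          (E (3 + 2 * j.1) [v 6, y, s] ↔ E (3 + 2 * j.1) [v 7, y, s]))) :=
    (g4 _ 10 11).and ((g2 _ 6 10 (by omega) (by omega)).and ((g2 _ 7 11 (by omega) (by omega)).and
      ((g3 _ 6 10 _ (by omega) (by omega)).and ((g3 _ 7 10 _ (by omega) (by omega)).and h1))))
  refine (FD.ex 10 (FD.ex 11 h2)).congr fun N E v hv => ?_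
  simp [Function.update_apply]

end Pool.Agent.H60.JS
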